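import Pool.Agent.W322.HB.Tools

/-!
# Project HB: the completion on a rooted tree
-/

set_option autoImplicit false

namespace Pool.Agent.W322.HB

open Finset Pool.Agent.H115R3.DT

section
variable {V : Type} [DecidableEq V]

theorem Mv_eq (Q : ℕ) (R : RT V) (W : Finset V) (f : V → ℕ) :
    Mv Q R W f = ∑ x ∈ Ds R W f \ Ls R W f, sg Q (x : ZMod Q) -
      ∑ x ∈ Ls R W f \ Ds R W f, sg Q (x : ZMod Q) := by
  unfold Mv
  rw [Finset.sum_sdiff_sub_sum_sdiff]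

theorem norm_sum_sg (Q : ℕ) [NeZero Q] (A : Finset ℕ) :
    ∑ c : ZMod Q, ((∑ x ∈ A, sg Q (x : ZMod Q)) c).natAbs = A.card := by
  have h1 : ∀ c : ZMod Q, ((∑ x ∈ A, sg Q (x : ZMod Q)) c).natAbs =
      ∑ x ∈ A, (if c = (x : ZMod Q) then 1 else 0) := by
    intro c
    have h2 : (∑ x ∈ A, sg Q (x : ZMod Q)) c = ((∑ x ∈ A, (if c = (x : ZMod Q) then 1 else 0) : ℕ) : ℤ) := by
      rw [Finset.sum_apply]
      push_cast
      apply Finset.sum_congr rfl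
      intro x _
      unfold sg
      rw [Pi.single_apply]
    rw [h2, Int.natAbs_natCast]
  simp_rw [h1]
  rw [Finset.sum_comm]
  simp

theorem norm_Mv (Q : ℕ) [NeZero Q] (R : RT V) (W : Finset V) (f : V → ℕ) :
    ∑ c : ZMod Q, (Mv Q R W f c).natAbs ≤
      (Ds R W f \ Ls R W f).card + (Ls R W f \ Ds R W f).card := by
  rw [← norm_sum_sg Q (Ds R W f \ Ls R W f), ← norm_sum_sg Q (Ls R W f \ Ds R W f),
    ← Finset.sum_add_distrib]
  apply Finset.sum_le_sum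
  intro c _
  rw [Mv_eq, Pi.sub_apply]
  exact Int.natAbs_sub_le _ _

theorem sum_Mv (Q : ℕ) [NeZero Q] {R : RT V} {m : ℕ} {W : Finset V} {f : V → ℕ} (h : St R m W f) :
    ∑ c : ZMod Q, Mv Q R W f c = 0 := by
  have h1 : ∀ A : Finset ℕ, ∑ c : ZMod Q, (∑ x ∈ A, sg Q (x : ZMod Q)) c = A.card := by
    intro A
    simp_rw [Finset.sum_apply]
    rw [Finset.sum_comm]
    have : ∀ x ∈ A, ∑ c : ZMod Q, sg Q (x : ZMod Q) c = 1 := by
      intro x _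
      unfold sg
      simp [Pi.single_apply]
    rw [Finset.sum_congr rfl this]
    simp
  unfold Mv
  simp_rw [Pi.sub_apply]
  rw [Finset.sum_sub_distrib, h1, h1, card_LD h, sub_self]

end

/-- the number of branches needed for a state with `h` discrepancies -/
def need (C K N h : ℕ) : ℕ :=
  h + K * ((C + 1) * h) + N * (2 * ((C + 1) * h) + 1) +
    2 * ((C + 1) * h + C * (N * (2 * ((C + 1) * h) + 1)))

/-- the completion, on a rooted tree -/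
theorem complete (hGen : TaskGen) (hLf : TaskLf) (hA : TaskA) (hC1 : TaskC1) (hB : TaskB) (hC2 : TaskC2)
    (hN : TaskN) (hLv : TaskLeaves)
    (V : Type) [Fintype V] [DecidableEq V] (R : RT V) (m C n κ Q u T S g₁ g₂ g₃ G N₀ K N h : ℕ)
    [NeZero Q] (p : ℕ → ℕ) (W : Finset V) (f : V → ℕ) (rs : Finset V) (e : V → ℕ → V)
    (P P' : ℕ → ℕ)
    (hnum : Num C κ Q u T S g₁ g₂ g₃ G) (hsh : Shape C n p) (hinv : Inv R m C n p G u W f rs e)
    (hP : Pat p κ 0 (range (n - 1)) P) (hQ : Q = P (p (n - 1))) (hP' : Pat p κ 0 (range n) P')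
    (hcls : ∀ M ∈ HH Q n p, ∃ ls : List (ℕ → ZMod Q),
      ls.length ≤ N * (∑ c, (M c).natAbs + 1) ∧ M + (ls.map (Ef Q n p)).sum = 0)
    (hM : Mv Q R W f ∈ HH Q n p)
    (hU : ∀ x ∈ Us R W f, x ≤ N₀) (hm : N₀ + S ≤ m) (hm2 : κ * (2 * S + T + 2) ≤ m)
    (hK : N₀ + S ≤ K * T) (hh : (Ds R W f \ Ls R W f).card ≤ h)
    (hcard : need C K N h ≤ rs.card) (hV : Fintype.card V = m + 1)
    (hleaf : ∀ x, x ∉ W → (∀ r ∈ rs, x ∉ vs n (e r)) → R.par x = R.v) :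
    ∃ f' : V → ℕ, Function.Injective f' ∧ (∀ x, f' x ≤ m) ∧
      ∀ x y, x ≠ R.v → y ≠ R.v → R.dif f' x = R.dif f' y → x = y := by
  have hκ := hnum.hκ
  have hC := hnum.hC
  have hS := hnum.hS
  unfold need at hcard
  -- A
  have hDL := card_DL hinv.st
  have hh' : (Ls R W f \ Ds R W f).card ≤ h := by rw [← hDL]; exact hh
  obtain ⟨f₁, rs₁, a1, a2, a3, a4, a5, a6, a7, a8⟩ := hA hGen V R m C n κ Q u T S g₁ g₂ g₃ G N₀ p W f
    rs e hnum hsh hinv hU hm (by omega)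
  set W₁ := Wn n W rs rs₁ e with hW₁
  have hM₁ : Mv Q R W₁ f₁ ∈ HH Q n p := by
    have := (HH Q n p).add_mem a8 hM
    rwa [sub_add_cancel] at this
  obtain ⟨h₁, hh₁⟩ : ∃ h₁, h₁ = (C + 1) * h := ⟨_, rfl⟩
  rw [← hh₁] at hcard
  have hc₁ : (Ds R W₁ f₁ \ Ls R W₁ f₁).card ≤ h₁ := by
    have e1 : C * (Ls R W f \ Ds R W f).card ≤ C * h := Nat.mul_le_mul_left C hh'
    have e2 : (C + 1) * h = C * h + h := by ring
    omega
  have hrs₁ : rs.card ≤ rs₁.card + h := by omega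
  -- C1
  have hTm : 2 * κ * T ≤ m := by
    refine le_trans ?_ hm2
    have e1 : 2 * T ≤ 2 * S + T + 2 := by
      have : T ≤ S := by
        rw [hS]; exact Nat.le_mul_of_pos_left T (by omega)
      omega
    calc 2 * κ * T = κ * (2 * T) := by ring
      _ ≤ κ * (2 * S + T + 2) := Nat.mul_le_mul_left κ e1
  obtain ⟨f₂, rs₂, b1, b2, b3, b4, b5, b6, b7⟩ := hC1 hLf V R m C n κ Q u T S g₁ g₂ g₃ G (N₀ + S) K p
    W₁ f₁ rs₁ e P hnum hsh a3 hP hQ a6 hm hK hTm (by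
      have e1 : K * (Ds R W₁ f₁ \ Ls R W₁ f₁).card ≤ K * h₁ := Nat.mul_le_mul_left K hc₁
      omega)
  set W₂ := Wn n W₁ rs₁ rs₂ e with hW₂
  have hM₂ : Mv Q R W₂ f₂ ∈ HH Q n p := by rw [b7]; exact hM₁
  have hc₂' : (Ls R W₂ f₂ \ Ds R W₂ f₂).card ≤ h₁ := by
    rw [b5, ← card_DL a3.st]; exact hc₁
  have hc₂ : (Ds R W₂ f₂ \ Ls R W₂ f₂).card ≤ h₁ := by
    rw [card_DL b3.st]; exact hc₂'
  have hrs₂ : rs₁.card ≤ rs₂.card + K * h₁ := by
    have e1 : K * (Ds R W₁ f₁ \ Ls R W₁ f₁).card ≤ K * h₁ := Nat.mul_le_mul_left K hc₁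
    omega
  -- B
  obtain ⟨ls, hls1, hls2⟩ := hcls _ hM₂
  have hls3 : ls.length ≤ N * (2 * h₁ + 1) := by
    refine hls1.trans (Nat.mul_le_mul_left N ?_)
    have := norm_Mv Q R W₂ f₂
    omega
  obtain ⟨h₂, hh₂⟩ : ∃ h₂, h₂ = N * (2 * h₁ + 1) := ⟨_, rfl⟩
  rw [← hh₂] at hcard hls3
  have hCT : (C + 1) * T ≤ m := by
    have e1 : (C + 1) * T ≤ S := by
      rw [hS]; exact Nat.mul_le_mul_right T (by omega)
    omega
  obtain ⟨f₃, rs₃, c1, c2, c3, c4, c5, c6, c7, c8⟩ := hB hGen V R m C n κ Q u T S g₁ g₂ g₃ G p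
    W₂ f₂ rs₂ e ls hnum hsh b3 (by rw [b5]; exact a5) b6 hCT (by omega) hls2
  set W₃ := Wn n W₂ rs₂ rs₃ e with hW₃
  have hc₃ : (Ds R W₃ f₃ \ Ls R W₃ f₃).card ≤ h₁ + C * h₂ := by
    have e1 : C * ls.length ≤ C * h₂ := Nat.mul_le_mul_left C hls3
    omega
  -- C2
  obtain ⟨f₄, rs₄, d1, d2, d3⟩ := hC2 hLf V R m C n κ Q u T S g₁ g₂ g₃ G p
    W₃ f₃ rs₃ e P hnum hsh c3 hP hQ c5 c6 hm2 c8 (by omega)
  set W₄ := Wn n W₃ rs₃ rs₄ e with hW₄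
  -- N
  have hκT : κ * T ≤ m := by
    refine le_trans ?_ hTm
    calc κ * T ≤ 2 * (κ * T) := by omega
      _ = 2 * κ * T := by ring
  obtain ⟨f₅, q1, q2⟩ := hN V R m C n κ Q u T S g₁ g₂ g₃ G p W₄ f₄ rs₄ e P' hnum hsh d2 hP' hκT d3
  refine hLv V R m _ f₅ q1 q2 hV ?_
  intro x hx
  have hsub : Wn n W rs ∅ e ⊆ Wn n W₄ rs₄ ∅ e := by
    have e1 : Wn n W rs rs₄ e = W₄ := by
      rw [hW₄, hW₃, hW₂, hW₁, Wn_trans a1 b1, Wn_trans (b1.trans a1) c1,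
        Wn_trans (c1.trans (b1.trans a1)) d1]
    rw [← e1, Wn_trans (d1.trans (c1.trans (b1.trans a1))) (Finset.empty_subset _)]
  have hx' : x ∉ Wn n W rs ∅ e := fun h => hx (hsub h)
  unfold Wn at hx'
  rw [mem_union, not_or, mem_biUnion] at hx'
  apply hleaf x hx'.1
  intro r hr hxr
  exact hx'.2 ⟨r, by simpa using hr, hxr⟩

end Pool.Agent.W322.HB
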