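import Pool.Agent.H115R3.DT.Base

/-!
# Trees with a vertex adjacent to many leaves and to many non-leaves: tasks (project HB)

The notation is that of the project H115-DEG2 (file Pool/Agent/H115R3/DT/Stmts.lean): `RT` rooted trees,
`St` states (labelled sets `W` of vertices), `Ls` labels, `Ds` differences, `Us = Ls ∪ Ds` used numbers,
`nb` number of the used numbers which are not coprime to `G`, `Pat` patterns.

A branch is given by an enumeration `e 0, …, e (n-1)` of a neighbour `e 0` of the root and all its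
descendants, with `R.par (e i) = e (p i)` for a fixed parent function `p` on `{0, …, n-1}` (the shape).
The vertex `e (n-1)` is a leaf; `P` is a pattern on `{0, …, n-2}`, and `Q = P (p (n-1))` is the modulus.
-/

set_option autoImplicit false

namespace Pool.Agent.W322.HB

open Finset Pool.Agent.H115R3.DT

section
variable {V : Type}

/-- `e 0, …, e (n-1)` enumerates (part of) a branch of shape `(n, p)` -/
structure Br (R : RT V) (n : ℕ) (p : ℕ → ℕ) (e : ℕ → V) : Prop where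
  ne : ∀ i < n, e i ≠ R.v
  inj : ∀ i < n, ∀ j < n, e i = e j → i = j
  top : R.par (e 0) = R.v
  par : ∀ i, 0 < i → i < n → R.par (e i) = e (p i)

variable [DecidableEq V]

/-- the vertices of a branch -/
def vs (n : ℕ) (e : ℕ → V) : Finset V := (range n).image e

/-- a family of untouched branches of the same shape -/
structure Fam (R : RT V) (n : ℕ) (p : ℕ → ℕ) (W rs : Finset V) (e : V → ℕ → V) : Prop where
  br : ∀ r ∈ rs, Br R n p (e r)
  disW : ∀ r ∈ rs, Disjoint (vs n (e r)) W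
  dis : ∀ r ∈ rs, ∀ r' ∈ rs, r ≠ r' → Disjoint (vs n (e r)) (vs n (e r'))

/-- the set of the labelled vertices after the branches of `rs \ rs'` have been labelled -/
def Wn (n : ℕ) (W rs rs' : Finset V) (e : V → ℕ → V) : Finset V :=
  W ∪ (rs \ rs').biUnion (fun r => vs n (e r))

end

/-- the numbers: the primes are larger than `2 κ`; `T` bounds the ranges for one free parameter; numbers
`≤ S` are called small; `C` bounds the sizes of the branches -/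
structure Num (C κ Q u T S g₁ g₂ g₃ G : ℕ) : Prop where
  p1 : g₁.Prime
  p2 : g₂.Prime
  p3 : g₃.Prime
  h1 : 2 * κ < g₁
  h2 : g₁ < g₂
  h3 : g₂ < g₃
  hG : G = g₁ * g₂ * g₃
  hκ : 1 ≤ κ
  hQ : 1 ≤ Q
  hQκ : Q ≤ κ
  hC : 2 ≤ C
  hT : G * κ * (2 * C * u + (C + 2) ^ 2) ≤ T
  hS : S = (C + 2 * κ + 2) * T

/-- shapes -/
structure Shape (C n : ℕ) (p : ℕ → ℕ) : Prop where
  two : 2 ≤ n
  le : n ≤ C
  lt : ∀ i, 0 < i → i < n → p i < i

/-- the vector of a residue class modulo `Q` -/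
def sg (Q : ℕ) (c : ZMod Q) : ZMod Q → ℤ := Pi.single c 1

section
variable {V : Type} [DecidableEq V]

/-- the class vector of a state: differences minus labels -/
def Mv (Q : ℕ) (R : RT V) (W : Finset V) (f : V → ℕ) : ZMod Q → ℤ :=
  ∑ x ∈ Ds R W f, sg Q (x : ZMod Q) - ∑ x ∈ Ls R W f, sg Q (x : ZMod Q)

end

/-- the effect of labelling a branch of shape `(n, p)` (labels decreasing downwards) with labels in the
classes `l 0, …, l (n-1)` on the class vector -/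
def Ef (Q n : ℕ) (p : ℕ → ℕ) (l : ℕ → ZMod Q) : ZMod Q → ℤ :=
  ∑ i ∈ (range n).filter (fun i => 0 < i), (sg Q (l (p i) - l i) - sg Q (l i))

/-- the group of the class vectors which can be compensated by branches of shape `(n, p)` -/
def HH (Q n : ℕ) (p : ℕ → ℕ) : AddSubgroup (ZMod Q → ℤ) := AddSubgroup.closure (Set.range (Ef Q n p))

section
variable {V : Type} [DecidableEq V]

/-- the invariant of the procedure -/
structure Inv (R : RT V) (m C n : ℕ) (p : ℕ → ℕ) (G u : ℕ) (W : Finset V) (f : V → ℕ) (rs : Finset V)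
    (e : V → ℕ → V) : Prop where
  st : St R m W f
  fam : Fam R n p W rs e
  num : nb G R W f + 2 * C * rs.card ≤ u

end

/-! ### class vectors -/

/-- CLS. Every vector of `HH` is compensated by a list of effects of controlled length. -/
def TaskCls : Prop := ∀ (Q C n : ℕ) (p : ℕ → ℕ) [NeZero Q], Shape C n p →
  ∃ N : ℕ, ∀ M ∈ HH Q n p, ∃ ls : List (ℕ → ZMod Q),
    ls.length ≤ N * (∑ c, (M c).natAbs + 1) ∧ M + (ls.map (Ef Q n p)).sum = 0

/-- ODD. If the shape has a vertex with an odd number of children, then `HH` consists of all vectors with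
sum zero. -/
def TaskOdd : Prop := ∀ (Q C n : ℕ) (p : ℕ → ℕ) [NeZero Q], Shape C n p →
  (∃ j < n, Odd ((range n).filter (fun i => 0 < i ∧ p i = j)).card) →
  ∀ M : ZMod Q → ℤ, ∑ c, M c = 0 → M ∈ HH Q n p

/-- EVEN. For every shape, `HH` contains the vectors with sum zero and even parity (and all vectors with
sum zero if `Q` is odd). -/
def TaskEven : Prop := ∀ (Q C n : ℕ) (p : ℕ → ℕ) [NeZero Q], Shape C n p →
  ∀ A B : Finset ℕ, A.card = B.card → Odd Q ∨ Even (∑ x ∈ A, x + ∑ x ∈ B, x) →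
  (∑ x ∈ A, sg Q (x : ZMod Q) - ∑ x ∈ B, sg Q (x : ZMod Q)) ∈ HH Q n p

/-- PAR. The parity of a state in which all labelled vertices other than the root have an even number of
labelled children. -/
def TaskPar : Prop := ∀ (V : Type) [DecidableEq V] (R : RT V) (m : ℕ) (W : Finset V) (f : V → ℕ),
  St R m W f →
  (∀ x ∈ W, x ≠ R.v → Even ((W.erase R.v).filter (fun y => R.par y = x)).card) →
  Even (∑ x ∈ Ds R W f, x + ∑ x ∈ Ls R W f, x)

/-! ### single vertices -/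

/-- ADD: label one more vertex `a`. -/
def TaskAdd : Prop := ∀ (V : Type) [DecidableEq V] (R : RT V) (m : ℕ) (W : Finset V) (f : V → ℕ)
  (a : V) (y : ℕ), St R m W f → a ∉ W → R.par a ∈ W → 1 ≤ y → y ≤ m → y ∉ Ls R W f →
  Int.natAbs ((y : ℤ) - (f (R.par a) : ℤ)) ∉ Ds R W f →
  St R m (insert a W) (Function.update f a y) ∧
    Ls R (insert a W) (Function.update f a y) = insert y (Ls R W f) ∧
    Ds R (insert a W) (Function.update f a y) =
      insert (Int.natAbs ((y : ℤ) - (f (R.par a) : ℤ))) (Ds R W f)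

/-- V: a fresh label below the label `φ`, in a given class. -/
def TaskV : Prop := ∀ (C κ Q u T S g₁ g₂ g₃ G lo φ : ℕ) (c : ZMod Q) (A : Finset ℕ),
  Num C κ Q u T S g₁ g₂ g₃ G → (A.filter (fun e => ¬ Nat.Coprime e G)).card ≤ u → 1 ≤ lo →
  lo + T ≤ φ →
  ∃ y : ℕ, lo ≤ y ∧ y < lo + T ∧ (y : ZMod Q) = c ∧ y ∉ A ∧ φ - y ∉ A ∧ y ≠ φ - y

/-- V0: a fresh label in a given class. -/
def TaskV0 : Prop := ∀ (C κ Q u T S g₁ g₂ g₃ G lo : ℕ) (c : ZMod Q) (A : Finset ℕ),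
  Num C κ Q u T S g₁ g₂ g₃ G → (A.filter (fun e => ¬ Nat.Coprime e G)).card ≤ u → 1 ≤ lo →
  ∃ y : ℕ, lo ≤ y ∧ y < lo + T ∧ (y : ZMod Q) = c ∧ y ∉ A

/-- GEN: label the vertices of `U` (parents first), the vertices of depth `d` by fresh numbers in
`[(C + 1 - d) T, (C + 2 - d) T)` in given classes. -/
def TaskGen : Prop := ∀ (V : Type) [DecidableEq V] (R : RT V)
  (m C κ Q u T S g₁ g₂ g₃ G : ℕ) (W : Finset V) (f : V → ℕ) (U : Finset V) (l : V → ZMod Q),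
  Num C κ Q u T S g₁ g₂ g₃ G → St R m W f → nb G R W f + 2 * U.card ≤ u → Disjoint U W →
  (∀ x ∈ U, R.par x ∈ W ∪ U) → (∀ x ∈ U, R.dp x ≤ C) →
  (∀ x ∈ U, R.par x ∈ W → R.par x ≠ R.v → (C + 2 - R.dp x) * T ≤ f (R.par x)) →
  (C + 1) * T ≤ m →
  ∃ f' : V → ℕ, (∀ x ∈ W, f' x = f x) ∧ St R m (W ∪ U) f' ∧
    (∀ x ∈ U, (C + 1 - R.dp x) * T ≤ f' x ∧ f' x < (C + 2 - R.dp x) * T ∧ (f' x : ZMod Q) = l x) ∧
    (∀ x ∈ U, R.par x ≠ R.v → R.dif f' x = f' (R.par x) - f' x) ∧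
    nb G R (W ∪ U) f' ≤ nb G R W f + 2 * U.card ∧
    (∀ x ∈ Ls R (W ∪ U) f' \ Ds R (W ∪ U) f', x ∈ Ls R W f \ Ds R W f ∨
      ∃ y ∈ U, R.par y ≠ R.v ∧ x = f' y) ∧
    (∀ x ∈ Ds R (W ∪ U) f' \ Ls R (W ∪ U) f', x ∈ Ds R W f \ Ls R W f ∨
      ∃ y ∈ U, R.par y ≠ R.v ∧ x = f' (R.par y) - f' y) ∧
    Mv Q R (W ∪ U) f' = Mv Q R W f + ∑ x ∈ U.filter (fun x => R.par x ≠ R.v),
      (sg Q ((f' (R.par x) : ZMod Q) - l x) - sg Q (l x))

/-! ### branches -/

/-- LF: label a branch by the multiples `t * P i` of a pattern and its last vertex by `x`. -/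
def TaskLf : Prop := ∀ (V : Type) [DecidableEq V] (R : RT V) (m C n κ : ℕ) (p : ℕ → ℕ) (W : Finset V)
  (f : V → ℕ) (e : ℕ → V) (P : ℕ → ℕ) (t x z : ℕ), Shape C n p → St R m W f → Br R n p e →
  Disjoint (vs n e) W → Pat p κ 0 (range (n - 1)) P → 1 ≤ t → t * κ ≤ m → 1 ≤ x → x ≤ m →
  x ∉ Ls R W f → (∀ i < n - 1, t * P i ∉ Us R W f) → (∀ i < n - 1, t * P i ≠ x) →
  z = Int.natAbs ((x : ℤ) - (t * P (p (n - 1)) : ℕ)) → z ∉ Ds R W f → (∀ i < n - 1, t * P i ≠ z) →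
  ∃ f' : V → ℕ, (∀ y ∈ W, f' y = f y) ∧ St R m (W ∪ vs n e) f' ∧
    Ls R (W ∪ vs n e) f' = Ls R W f ∪ insert x ((range (n - 1)).image (fun i => t * P i)) ∧
    Ds R (W ∪ vs n e) f' = Ds R W f ∪ insert z ((range (n - 1)).image (fun i => t * P i))

/-- N: label all the branches by the multiples `t * P i` of a pattern. -/
def TaskN : Prop := ∀ (V : Type) [DecidableEq V] (R : RT V) (m C n κ Q u T S g₁ g₂ g₃ G : ℕ) (p : ℕ → ℕ)
  (W : Finset V) (f : V → ℕ) (rs : Finset V) (e : V → ℕ → V) (P : ℕ → ℕ),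
  Num C κ Q u T S g₁ g₂ g₃ G → Shape C n p → Inv R m C n p G u W f rs e → Pat p κ 0 (range n) P →
  κ * T ≤ m → Ls R W f = Ds R W f →
  ∃ f' : V → ℕ, St R m (Wn n W rs ∅ e) f' ∧ Ls R (Wn n W rs ∅ e) f' = Ds R (Wn n W rs ∅ e) f'

/-- A: the large elements `d` of `Ls \ Ds` are removed: label `z + d` at `e r 0`, label `z` at `e r 1`,
the other vertices of the branch get fresh small labels. -/
def TaskA : Prop := TaskGen → ∀ (V : Type) [DecidableEq V] (R : RT V)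
  (m C n κ Q u T S g₁ g₂ g₃ G N₀ : ℕ) (p : ℕ → ℕ)
  (W : Finset V) (f : V → ℕ) (rs : Finset V) (e : V → ℕ → V),
  Num C κ Q u T S g₁ g₂ g₃ G → Shape C n p → Inv R m C n p G u W f rs e →
  (∀ x ∈ Us R W f, x ≤ N₀) → N₀ + S ≤ m → (Ls R W f \ Ds R W f).card ≤ rs.card →
  ∃ (f' : V → ℕ) (rs' : Finset V), rs' ⊆ rs ∧ rs.card ≤ rs'.card + (Ls R W f \ Ds R W f).card ∧
    Inv R m C n p G u (Wn n W rs rs' e) f' rs' e ∧ (∀ x ∈ W, f' x = f x) ∧
    (∀ x ∈ Ls R (Wn n W rs rs' e) f' \ Ds R (Wn n W rs rs' e) f', x ≤ S) ∧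
    (∀ x ∈ Ds R (Wn n W rs rs' e) f' \ Ls R (Wn n W rs rs' e) f', x ≤ N₀ + S) ∧
    (Ds R (Wn n W rs rs' e) f' \ Ls R (Wn n W rs rs' e) f').card ≤
      (Ds R W f \ Ls R W f).card + C * (Ls R W f \ Ds R W f).card ∧
    Mv Q R (Wn n W rs rs' e) f' - Mv Q R W f ∈ HH Q n p

/-- C1: the large elements `x` of `Ds \ Ls` become small: label `x` at the last vertex of a branch. -/
def TaskC1 : Prop := TaskLf → ∀ (V : Type) [DecidableEq V] (R : RT V)
  (m C n κ Q u T S g₁ g₂ g₃ G N₁ K : ℕ) (p : ℕ → ℕ)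
  (W : Finset V) (f : V → ℕ) (rs : Finset V) (e : V → ℕ → V) (P : ℕ → ℕ),
  Num C κ Q u T S g₁ g₂ g₃ G → Shape C n p → Inv R m C n p G u W f rs e →
  Pat p κ 0 (range (n - 1)) P → Q = P (p (n - 1)) →
  (∀ x ∈ Ds R W f \ Ls R W f, x ≤ N₁) → N₁ ≤ m → N₁ ≤ K * T → 2 * κ * T ≤ m →
  K * (Ds R W f \ Ls R W f).card ≤ rs.card →
  ∃ (f' : V → ℕ) (rs' : Finset V), rs' ⊆ rs ∧
    rs.card ≤ rs'.card + K * (Ds R W f \ Ls R W f).card ∧
    Inv R m C n p G u (Wn n W rs rs' e) f' rs' e ∧ (∀ x ∈ W, f' x = f x) ∧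
    Ls R (Wn n W rs rs' e) f' \ Ds R (Wn n W rs rs' e) f' = Ls R W f \ Ds R W f ∧
    (∀ x ∈ Ds R (Wn n W rs rs' e) f' \ Ls R (Wn n W rs rs' e) f', x ≤ S) ∧
    Mv Q R (Wn n W rs rs' e) f' = Mv Q R W f

/-- B: the class vector becomes zero: several branches get fresh small labels in suitable classes. -/
def TaskB : Prop := TaskGen → ∀ (V : Type) [DecidableEq V] (R : RT V)
  (m C n κ Q u T S g₁ g₂ g₃ G : ℕ) (p : ℕ → ℕ)
  (W : Finset V) (f : V → ℕ) (rs : Finset V) (e : V → ℕ → V) (ls : List (ℕ → ZMod Q)),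
  Num C κ Q u T S g₁ g₂ g₃ G → Shape C n p → Inv R m C n p G u W f rs e →
  (∀ x ∈ Ls R W f \ Ds R W f, x ≤ S) → (∀ x ∈ Ds R W f \ Ls R W f, x ≤ S) → (C + 1) * T ≤ m →
  ls.length ≤ rs.card → Mv Q R W f + (ls.map (Ef Q n p)).sum = 0 →
  ∃ (f' : V → ℕ) (rs' : Finset V), rs' ⊆ rs ∧ rs.card = rs'.card + ls.length ∧
    Inv R m C n p G u (Wn n W rs rs' e) f' rs' e ∧ (∀ x ∈ W, f' x = f x) ∧
    (∀ x ∈ Ls R (Wn n W rs rs' e) f' \ Ds R (Wn n W rs rs' e) f', x ≤ S) ∧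
    (∀ x ∈ Ds R (Wn n W rs rs' e) f' \ Ls R (Wn n W rs rs' e) f', x ≤ S) ∧
    (Ds R (Wn n W rs rs' e) f' \ Ls R (Wn n W rs rs' e) f').card ≤
      (Ds R W f \ Ls R W f).card + C * ls.length ∧
    Mv Q R (Wn n W rs rs' e) f' = 0

/-- C2: small elements `x` of `Ds \ Ls` and `d` of `Ls \ Ds` in the same class modulo `Q` cancel, with the
help of two branches: labels `t * P i` and `x` at the last vertex, and `t' * P i` with
`t' = t + (d - x) / Q` and `t * Q - x` at the last vertex; loop until nothing is left. -/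
def TaskC2 : Prop := TaskLf → ∀ (V : Type) [DecidableEq V] (R : RT V)
  (m C n κ Q u T S g₁ g₂ g₃ G : ℕ) (p : ℕ → ℕ)
  (W : Finset V) (f : V → ℕ) (rs : Finset V) (e : V → ℕ → V) (P : ℕ → ℕ),
  Num C κ Q u T S g₁ g₂ g₃ G → Shape C n p → Inv R m C n p G u W f rs e →
  Pat p κ 0 (range (n - 1)) P → Q = P (p (n - 1)) →
  (∀ x ∈ Ls R W f \ Ds R W f, x ≤ S) → (∀ x ∈ Ds R W f \ Ls R W f, x ≤ S) →
  κ * (2 * S + T + 2) ≤ m → Mv Q R W f = 0 → 2 * (Ds R W f \ Ls R W f).card ≤ rs.card →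
  ∃ (f' : V → ℕ) (rs' : Finset V), rs' ⊆ rs ∧
    Inv R m C n p G u (Wn n W rs rs' e) f' rs' e ∧
    Ls R (Wn n W rs rs' e) f' = Ds R (Wn n W rs rs' e) f'

end Pool.Agent.W322.HB
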