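import Pool.Agent.W322.HB.Asm
import Pool.Agent.H115R2.Base

/-!
# Project HB: further tasks (constants, rooted tree of a tree, enumeration of a branch, parity)
-/

set_option autoImplicit false

namespace Pool.Agent.W322.HB

open Finset Pool.Agent.H115R3.DT

/-- CONST -/
def TaskConst : Prop := ∀ (ε : ℝ) (κ C G N Kc : ℕ), 0 < ε → ε ≤ 1 / 10 → 1 ≤ κ → 2 ≤ C → 1 ≤ G → 1 ≤ Kc →
  ∃ (β : ℝ) (K : ℕ), 0 < β ∧ ∃ m₁ : ℕ, ∀ m : ℕ, m₁ ≤ m → ∃ N₀ T u k : ℕ,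
    (∀ e : ℕ, (e : ℝ) ≤ (1 - ε / 8) * m → e ≤ N₀) ∧
    N₀ + (C + 2 * κ + 2) * T ≤ m ∧
    κ * (2 * ((C + 2 * κ + 2) * T) + T + 2) ≤ m ∧
    N₀ + (C + 2 * κ + 2) * T + (C + 2 * κ + 2) * T ≤ K * T ∧
    N₀ + (C + 2 * κ + 2) * T + (C + 2 * κ + 2) * T ≤ m ∧
    G * κ * (2 * C * u + (C + 2) ^ 2) ≤ T ∧
    (∀ q : ℕ, (q : ℝ) ≤ β * m → q + 2 * C + 2 * C * k ≤ u) ∧
    (∀ h : ℕ, (h : ℝ) ≤ β * m → need C K N (h + C) ≤ k) ∧
    ((Kc * (k + 1) + 1 : ℕ) : ℝ) ≤ ε / 4 * m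

/-- ROOT: the rooted tree of a tree `T` with a vertex `v` -/
def TaskRoot : Prop := ∀ (V : Type) [Fintype V] [DecidableEq V] (T : SimpleGraph V), T.IsTree → ∀ v : V,
  ∃ R : RT V, R.v = v ∧ (∀ x, x ≠ v → T.Adj (R.par x) x) ∧
    (∀ a b, T.Adj a b → (a ≠ v ∧ R.par a = b) ∨ (b ≠ v ∧ R.par b = a)) ∧
    (∀ w, T.Adj v w ↔ (w ≠ v ∧ R.par w = v)) ∧
    (∀ x, x ≠ v → (T.neighborSet x).ncard = (univ.filter (fun y => R.par y = x)).card + 1) ∧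
    (∀ w, T.Adj v w → ∀ x, (∃ i, R.par^[i] x = w) ↔ T.dist v x = T.dist w x + 1)

/-- SHAPE: enumeration of the branch of a neighbour `w` of the root, parents first -/
def TaskShape : Prop := ∀ (V : Type) [Fintype V] [DecidableEq V] (R : RT V) (w : V) (S : Finset V),
  w ≠ R.v → R.par w = R.v → (∀ x, x ∈ S ↔ ∃ i, R.par^[i] x = w) →
  ∃ (e : ℕ → V) (p : ℕ → ℕ), vs S.card e = S ∧ e 0 = w ∧ Br R S.card p e ∧
    ∀ i, 0 < i → i < S.card → p i < i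

/-- PARF: parity formula -/
def TaskParF : Prop := ∀ (V : Type) [DecidableEq V] (R : RT V) (m : ℕ) (W : Finset V) (f : V → ℕ),
  St R m W f →
  (∑ x ∈ Ds R W f, x + ∑ x ∈ Ls R W f, x) % 2 =
    (∑ y ∈ W.erase R.v, ((W.erase R.v).filter (fun x => R.par x = y)).card * f y) % 2

end Pool.Agent.W322.HB
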