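import Pool.Agent.W322.HB.Stmts

/-!
# Project HB: tools
-/

set_option autoImplicit false

namespace Pool.Agent.W322.HB

open Finset Pool.Agent.H115R3.DT

/-- a number avoiding finitely many finite sets -/
theorem pick {α : Type} (J : ℕ) (s : Finset α) (B : α → Finset ℕ) (h : ∑ i ∈ s, (B i).card ≤ J) :
    ∃ j ≤ J, ∀ i ∈ s, j ∉ B i := by
  classical
  have h1 : (s.biUnion B).card ≤ J := (Finset.card_biUnion_le).trans h
  have h2 : (s.biUnion B).card < (range (J + 1)).card := by rw [card_range]; omega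
  obtain ⟨j, hj, hj2⟩ := Finset.exists_mem_notMem_of_card_lt_card h2
  refine ⟨j, by rw [mem_range] at hj; omega, fun i hi hji => hj2 (mem_biUnion.2 ⟨i, hi, hji⟩)⟩

/-- the number of bad parameters for a form with values not coprime to `G` -/
theorem bad_card (G u J : ℕ) (A : Finset ℕ) (hA : (A.filter (fun e => ¬ Nat.Coprime e G)).card ≤ u)
    (F : ℕ → ℕ) (hinj : ∀ i ≤ J, ∀ j ≤ J, F i = F j → i = j) (hnc : ∀ j ≤ J, ¬ Nat.Coprime (F j) G) :
    ((range (J + 1)).filter (fun j => F j ∈ A)).card ≤ u := by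
  refine le_trans ?_ hA
  apply Finset.card_le_card_of_injOn F
  · intro j hj
    have hj' := Finset.mem_filter.1 (Finset.mem_coe.1 hj)
    rw [mem_range] at hj'
    exact Finset.mem_coe.2 (Finset.mem_filter.2 ⟨hj'.2, hnc j (by omega)⟩)
  · intro i hi j hj hij
    have hi' := Finset.mem_filter.1 (Finset.mem_coe.1 hi)
    have hj' := Finset.mem_filter.1 (Finset.mem_coe.1 hj)
    rw [mem_range] at hi' hj'
    exact hinj i (by omega) j (by omega) hij

/-- a set of parameters with at most one element -/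
theorem bad_one (J : ℕ) (q : ℕ → Prop) [DecidablePred q] (h : ∀ i j, q i → q j → i = j) :
    ((range (J + 1)).filter q).card ≤ 1 := by
  rw [Finset.card_le_one]
  intro a ha b hb
  exact h a b (Finset.mem_filter.1 ha).2 (Finset.mem_filter.1 hb).2

/-- a residue class for pairwise coprime moduli, in a given interval -/
theorem crt3 (a b c r₁ r₂ r₃ lo : ℕ) (hab : Nat.Coprime a b) (hac : Nat.Coprime a c)
    (hbc : Nat.Coprime b c) (ha : 0 < a) (hb : 0 < b) (hc : 0 < c) :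
    ∃ t, lo ≤ t ∧ t < lo + a * b * c ∧ t ≡ r₁ [MOD a] ∧ t ≡ r₂ [MOD b] ∧ t ≡ r₃ [MOD c] := by
  obtain ⟨x, hx1, hx2⟩ := Nat.chineseRemainder hab r₁ r₂
  have habc : Nat.Coprime (a * b) c := Nat.Coprime.mul_left hac hbc
  obtain ⟨y, hy1, hy2⟩ := Nat.chineseRemainder habc x r₃
  have hM : 0 < a * b * c := Nat.mul_pos (Nat.mul_pos ha hb) hc
  obtain ⟨M, hMd⟩ : ∃ M, M = a * b * c := ⟨_, rfl⟩
  rw [← hMd] at hM ⊢
  -- the representative in `[lo, lo + M)`
  refine ⟨lo + (y + M * lo - lo) % M, Nat.le_add_right _ _, Nat.add_lt_add_left (Nat.mod_lt _ hM) _, ?_⟩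
  have h0 : lo ≤ y + M * lo := le_trans (Nat.le_mul_of_pos_left lo hM) (Nat.le_add_left _ _)
  have h1 : lo + (y + M * lo - lo) % M ≡ y [MOD M] := by
    calc lo + (y + M * lo - lo) % M ≡ lo + (y + M * lo - lo) [MOD M] :=
          Nat.ModEq.add_left _ (Nat.mod_modEq _ _)
      _ = y + M * lo := by omega
      _ ≡ y [MOD M] := by
          have : M * lo ≡ 0 [MOD M] := (Nat.modEq_zero_iff_dvd).2 (dvd_mul_right _ _)
          simpa using Nat.ModEq.add_left y this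
  have hab' : a * b ∣ M := by rw [hMd]; exact dvd_mul_right _ _
  refine ⟨?_, ?_, ?_⟩
  · exact (h1.of_dvd ((dvd_mul_right a b).trans hab')).trans
      ((hy1.of_dvd (dvd_mul_right a b)).trans hx1)
  · exact (h1.of_dvd ((dvd_mul_left b a).trans hab')).trans
      ((hy1.of_dvd (dvd_mul_left b a)).trans hx2)
  · exact (h1.of_dvd (by rw [hMd]; exact dvd_mul_left _ _)).trans hy2

section num
variable {C κ Q u T S g₁ g₂ g₃ G : ℕ}

theorem Num.Gpos (h : Num C κ Q u T S g₁ g₂ g₃ G) : 0 < G := by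
  rw [h.hG]; exact Nat.mul_pos (Nat.mul_pos h.p1.pos h.p2.pos) h.p3.pos

theorem Num.Tpos (h : Num C κ Q u T S g₁ g₂ g₃ G) : 1 ≤ T := by
  refine le_trans ?_ h.hT
  have h1 := h.Gpos
  have h2 := h.hκ
  have h3 : 1 ≤ 2 * C * u + (C + 2) ^ 2 := by
    have : 1 ≤ (C + 2) ^ 2 := Nat.one_le_pow _ _ (by omega)
    omega
  exact Nat.mul_pos (Nat.mul_pos h1 h2) h3

theorem Num.c12 (h : Num C κ Q u T S g₁ g₂ g₃ G) : Nat.Coprime g₁ g₂ :=
  (Nat.coprime_primes h.p1 h.p2).mpr h.h2.ne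

theorem Num.c13 (h : Num C κ Q u T S g₁ g₂ g₃ G) : Nat.Coprime g₁ g₃ :=
  (Nat.coprime_primes h.p1 h.p3).mpr (h.h2.trans h.h3).ne

theorem Num.c23 (h : Num C κ Q u T S g₁ g₂ g₃ G) : Nat.Coprime g₂ g₃ :=
  (Nat.coprime_primes h.p2 h.p3).mpr h.h3.ne

/-- small positive numbers are coprime to the primes -/
theorem Num.cop (h : Num C κ Q u T S g₁ g₂ g₃ G) {q : ℕ} (hq : 1 ≤ q) (hqκ : q ≤ κ) :
    Nat.Coprime g₁ q ∧ Nat.Coprime g₂ q ∧ Nat.Coprime g₃ q := by
  have h1 := h.h1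
  have h2 := h.h2
  have h3 := h.h3
  refine ⟨?_, ?_, ?_⟩
  · exact (Nat.Prime.coprime_iff_not_dvd h.p1).2 (Nat.not_dvd_of_pos_of_lt (by omega) (by omega))
  · exact (Nat.Prime.coprime_iff_not_dvd h.p2).2 (Nat.not_dvd_of_pos_of_lt (by omega) (by omega))
  · exact (Nat.Prime.coprime_iff_not_dvd h.p3).2 (Nat.not_dvd_of_pos_of_lt (by omega) (by omega))

/-- a positive multiple of one of the primes is not coprime to `G` -/
theorem Num.nc (h : Num C κ Q u T S g₁ g₂ g₃ G) {e : ℕ} (he : g₁ ∣ e ∨ g₂ ∣ e ∨ g₃ ∣ e) :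
    ¬ Nat.Coprime e G := by
  intro hc
  have h1 : g₁ ∣ G := by rw [h.hG, mul_assoc]; exact dvd_mul_right _ _
  have h2 : g₂ ∣ G := by rw [h.hG]; exact (dvd_mul_left _ _).trans (dvd_mul_right _ _)
  have h3 : g₃ ∣ G := by rw [h.hG]; exact dvd_mul_left _ _
  rcases he with he | he | he
  · exact h.p1.one_lt.ne' (Nat.dvd_one.1 (hc ▸ Nat.dvd_gcd he h1))
  · exact h.p2.one_lt.ne' (Nat.dvd_one.1 (hc ▸ Nat.dvd_gcd he h2))
  · exact h.p3.one_lt.ne' (Nat.dvd_one.1 (hc ▸ Nat.dvd_gcd he h3))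

end num

section
variable {V : Type} [DecidableEq V]

theorem mem_vs {n : ℕ} {e : ℕ → V} {x : V} : x ∈ vs n e ↔ ∃ i < n, e i = x := by
  simp [vs]

theorem card_vs_le (n : ℕ) (e : ℕ → V) : (vs n e).card ≤ n := by
  have h : (vs n e).card ≤ (range n).card := Finset.card_image_le
  rwa [card_range] at h

theorem Wn_self (n : ℕ) (W rs : Finset V) (e : V → ℕ → V) : Wn n W rs rs e = W := by
  simp [Wn]

theorem Wn_trans {n : ℕ} {W rs rs₁ rs₂ : Finset V} {e : V → ℕ → V} (h1 : rs₁ ⊆ rs) (h2 : rs₂ ⊆ rs₁) :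
    Wn n (Wn n W rs rs₁ e) rs₁ rs₂ e = Wn n W rs rs₂ e := by
  ext x
  simp only [Wn, mem_union, mem_biUnion, mem_sdiff]
  constructor
  · rintro ((h | ⟨r, ⟨hr, hr'⟩, hx⟩) | ⟨r, ⟨hr, hr'⟩, hx⟩)
    · exact Or.inl h
    · exact Or.inr ⟨r, ⟨hr, fun h => hr' (h2 h)⟩, hx⟩
    · exact Or.inr ⟨r, ⟨h1 hr, hr'⟩, hx⟩
  · rintro (h | ⟨r, ⟨hr, hr'⟩, hx⟩)
    · exact Or.inl (Or.inl h)
    · by_cases hr1 : r ∈ rs₁
      · exact Or.inr ⟨r, ⟨hr1, hr'⟩, hx⟩
      · exact Or.inl (Or.inr ⟨r, ⟨hr, hr1⟩, hx⟩)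

theorem Wn_erase {n : ℕ} {W rs : Finset V} {e : V → ℕ → V} {r : V} (hr : r ∈ rs) :
    Wn n W rs (rs.erase r) e = W ∪ vs n (e r) := by
  have : rs \ rs.erase r = {r} := by
    ext x
    simp only [mem_sdiff, mem_erase, mem_singleton, not_and]
    constructor
    · rintro ⟨h1, h2⟩
      by_contra h
      exact h2 h h1
    · rintro rfl
      exact ⟨hr, fun h => absurd rfl h⟩
  simp [Wn, this]

/-- the family after one branch has been labelled -/
theorem Fam.step {R : RT V} {n : ℕ} {p : ℕ → ℕ} {W rs : Finset V} {e : V → ℕ → V}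
    (h : Fam R n p W rs e) {r : V} (hr : r ∈ rs) : Fam R n p (W ∪ vs n (e r)) (rs.erase r) e := by
  refine ⟨fun r' h' => h.br r' (mem_of_mem_erase h'), ?_, ?_⟩
  · intro r' h'
    rw [Finset.disjoint_union_right]
    exact ⟨h.disW r' (mem_of_mem_erase h'), h.dis r' (mem_of_mem_erase h') r hr (ne_of_mem_erase h')⟩
  · intro r₁ h₁ r₂ h₂ hne
    exact h.dis r₁ (mem_of_mem_erase h₁) r₂ (mem_of_mem_erase h₂) hne

/-- the used numbers grow by a set `M` -/
theorem nb_le {R : RT V} {G : ℕ} {W W' : Finset V} {f f' : V → ℕ} {M : Finset ℕ}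
    (h : Us R W' f' ⊆ Us R W f ∪ M) : nb G R W' f' ≤ nb G R W f + M.card := by
  unfold nb
  calc ((Us R W' f').filter (fun e => ¬ Nat.Coprime e G)).card
      ≤ ((Us R W f ∪ M).filter (fun e => ¬ Nat.Coprime e G)).card :=
        card_le_card (Finset.filter_subset_filter _ h)
    _ ≤ ((Us R W f).filter (fun e => ¬ Nat.Coprime e G) ∪ M).card := by
        apply card_le_card
        rw [Finset.filter_union]
        exact Finset.union_subset_union (le_refl _) (Finset.filter_subset _ _)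
    _ ≤ _ := Finset.card_union_le _ _

/-- the invariant after one branch has been labelled -/
theorem Inv.step {R : RT V} {m C n : ℕ} {p : ℕ → ℕ} {G u : ℕ} {W : Finset V} {f : V → ℕ}
    {rs : Finset V} {e : V → ℕ → V} (h : Inv R m C n p G u W f rs e) {r : V} (hr : r ∈ rs)
    {f' : V → ℕ} (hst : St R m (W ∪ vs n (e r)) f')
    (hnb : nb G R (W ∪ vs n (e r)) f' ≤ nb G R W f + 2 * C) :
    Inv R m C n p G u (W ∪ vs n (e r)) f' (rs.erase r) e := by
  refine ⟨hst, h.fam.step hr, ?_⟩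
  have h1 := h.num
  have h2 : (rs.erase r).card + 1 = rs.card := Finset.card_erase_add_one hr
  have h3 : 2 * C * rs.card = 2 * C * (rs.erase r).card + 2 * C := by rw [← h2]; ring
  omega

/-- the numbers of labels and of differences are equal -/
theorem card_LD {R : RT V} {m : ℕ} {W : Finset V} {f : V → ℕ} (h : St R m W f) :
    (Ls R W f).card = (Ds R W f).card := by
  unfold Ls Ds
  rw [card_image_of_injOn, card_image_of_injOn]
  · intro x hx y hy hxy
    have hx' := mem_erase.1 (mem_coe.1 hx)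
    have hy' := mem_erase.1 (mem_coe.1 hy)
    exact h.dinj x hx'.2 y hy'.2 hx'.1 hy'.1 hxy
  · intro x hx y hy hxy
    exact h.inj x (mem_of_mem_erase (mem_coe.1 hx)) y (mem_of_mem_erase (mem_coe.1 hy)) hxy

theorem card_DL {R : RT V} {m : ℕ} {W : Finset V} {f : V → ℕ} (h : St R m W f) :
    (Ds R W f \ Ls R W f).card = (Ls R W f \ Ds R W f).card :=
  card_sdiff_comm (card_LD h).symm

theorem one_le_of_mem_Ls {R : RT V} {m : ℕ} {W : Finset V} {f : V → ℕ} (h : St R m W f) {x : ℕ}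
    (hx : x ∈ Ls R W f) : 1 ≤ x := by
  unfold Ls at hx
  obtain ⟨y, hy, rfl⟩ := mem_image.1 hx
  obtain ⟨h1, h2⟩ := mem_erase.1 hy
  rcases Nat.eq_zero_or_pos (f y) with h0 | h0
  · exact absurd (h.inj y h2 R.v h.root (by rw [h0, h.f0])) h1
  · exact h0

theorem one_le_of_mem_Ds {R : RT V} {m : ℕ} {W : Finset V} {f : V → ℕ} (h : St R m W f) {x : ℕ}
    (hx : x ∈ Ds R W f) : 1 ≤ x := by
  unfold Ds at hx
  obtain ⟨y, hy, rfl⟩ := mem_image.1 hx
  obtain ⟨h1, h2⟩ := mem_erase.1 hy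
  rcases Nat.eq_zero_or_pos (R.dif f y) with h0 | h0
  · exfalso
    unfold RT.dif at h0
    have h3 : f y = f (R.par y) := by omega
    have h4 := h.inj y h2 _ (h.cl y h2) h3
    have h5 := R.dp_par y h1
    rw [← h4] at h5
    omega
  · exact h0

end

end Pool.Agent.W322.HB
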